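import Pool.Agent.Helper54.DT.StmtsH

namespace Pool.Agent.Helper18.DCT

open Finset Pool.Agent.Helper54.ETR Pool.Agent.Helper54.Poly Pool.Agent.Helper54.DI
  Pool.Agent.Helper54.DT

lemma DEGF_sum (l : List Term) (d : ℕ) (h : ∀ t ∈ l, t.deg ∅ ≤ d) : (sumO oT l).deg ∅ ≤ d := by
  induction l with
  | nil => exact Nat.zero_le d
  | cons a l ih =>
    have h1 := h a (by simp)
    have h2 := ih (fun t ht => h t (by simp [ht]))
    show max (a.deg ∅) ((sumO oT l).deg ∅) ≤ d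
    exact max_le h1 h2

lemma DEGF_nu (n : ℕ) : (nuO oT n).deg ∅ = 0 := by
  induction n with
  | zero => rfl
  | succ n ih =>
    show max ((nuO oT n).deg ∅) 0 = 0
    rw [ih]
    rfl

lemma DEGF_var (i : ℕ) : (oT.var i).deg ∅ = 1 := by
  show (if i ∈ (∅ : Finset ℕ) then 0 else 1) = 1
  simp

lemma DEGF_add (s t : Term) : (oT.add s t).deg ∅ = max (s.deg ∅) (t.deg ∅) := rfl
lemma DEGF_sub (s t : Term) : (oT.sub s t).deg ∅ = max (s.deg ∅) (t.deg ∅) := rfl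
lemma DEGF_mul (s t : Term) : (oT.mul s t).deg ∅ = s.deg ∅ + t.deg ∅ := rfl
lemma DEGF_zero : (oT.zero).deg ∅ = 0 := rfl
lemma DEGF_one : (oT.one).deg ∅ = 0 := rfl

lemma DEGF_zz (v w : ℕ) : (zz oT v w).deg ∅ = 2 := by
  unfold Pool.Agent.Helper54.DT.zz
  rw [DEGF_mul, DEGF_var, DEGF_var]

lemma DEGF_cO (f : SF) (v w : ℕ) : (cO oT f v w).deg ∅ = 0 := by
  unfold cO
  rw [DEGF_sub, DEGF_nu, DEGF_nu]
  rfl

lemma DEGF_sum2 (M : ℕ) (F : ℕ → ℕ → Term) (d : ℕ) (h : ∀ v w, (F v w).deg ∅ ≤ d) :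
    (sum2 oT M F).deg ∅ ≤ d := by
  unfold sum2
  refine DEGF_sum _ d fun t ht => ?_
  rw [List.mem_flatMap] at ht
  obtain ⟨v, -, ht⟩ := ht
  rw [List.mem_map] at ht
  obtain ⟨w, -, rfl⟩ := ht
  exact h v w

lemma DEGF_sumY (M : ℕ) (Fs : List SF) (F : SF → ℕ → ℕ → ℕ → ℕ → ℕ → Term) (d : ℕ)
    (h : ∀ f l v w a b, (F f l v w a b).deg ∅ ≤ d) : (sumY oT M Fs F).deg ∅ ≤ d := by
  unfold sumY
  refine DEGF_sum _ d fun t ht => ?_
  rw [List.mem_flatMap] at ht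
  obtain ⟨l, -, ht⟩ := ht
  rw [List.mem_flatMap] at ht
  obtain ⟨v, -, ht⟩ := ht
  rw [List.mem_flatMap] at ht
  obtain ⟨w, -, ht⟩ := ht
  rw [List.mem_flatMap] at ht
  obtain ⟨a, -, ht⟩ := ht
  rw [List.mem_map] at ht
  obtain ⟨b, -, rfl⟩ := ht
  exact h _ _ _ _ _ _

lemma DEGF_CO (M : ℕ) (Fs : List SF) : (CO oT M Fs).deg ∅ = 0 := by
  refine Nat.le_zero.mp ?_
  unfold CO
  refine DEGF_sum _ 0 fun t ht => ?_
  rw [List.mem_map] at ht
  obtain ⟨f, -, rfl⟩ := ht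
  refine DEGF_sum2 M _ 0 fun v w => ?_
  rw [DEGF_add, DEGF_mul, DEGF_cO]
  exact le_of_eq rfl

lemma DEGF_ball (M : ℕ) (Fs : List SF) (p : Term) (hp : 2 ≤ p.deg ∅) :
    (ballO oT M Fs p).deg ∅ = p.deg ∅ := by
  unfold ballO
  rw [DEGF_add, DEGF_add, DEGF_mul, DEGF_CO]
  have h1 : (sumO oT ((List.range M).map fun v => zz oT v v)).deg ∅ ≤ 2 := by
    refine DEGF_sum _ 2 fun t ht => ?_
    rw [List.mem_map] at ht
    obtain ⟨v, -, rfl⟩ := ht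
    exact (DEGF_zz v v).le
  have h2 : (sumY oT M Fs fun _ l v w a b =>
      oT.mul (oT.var (yv l v w a b)) (oT.var (yv l v w a b))).deg ∅ ≤ 2 := by
    refine DEGF_sumY M Fs _ 2 fun f l v w a b => ?_
    rw [DEGF_mul, DEGF_var]
  omega

lemma DEGF_cub (M : ℕ) (Fs : List SF) (p : Term) (hp : p.deg ∅ = 3) :
    (cubO oT M Fs p).deg ∅ = 3 := by
  unfold cubO
  rw [DEGF_add, hp]
  have h2 : (sumY oT M Fs fun f l v w a b => oT.mul (oT.var (yv l v w a b))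
      (oT.sub (oT.mul (cO oT f v w) (zz oT a b)) (oT.mul (cO oT f a b) (zz oT v w)))).deg ∅ ≤
      3 := by
    refine DEGF_sumY M Fs _ 3 fun f l v w a b => ?_
    rw [DEGF_mul, DEGF_var, DEGF_sub, DEGF_mul, DEGF_mul, DEGF_cO, DEGF_cO, DEGF_zz, DEGF_zz]
    omega
  omega

lemma DEGF_p2 : (p2 oT).deg ∅ = 2 := by
  unfold p2
  rw [DEGF_mul, DEGF_zz, DEGF_zero]

lemma DEGF_p3 : (p3 oT).deg ∅ = 3 := by
  unfold p3
  rw [DEGF_mul, DEGF_mul, DEGF_zz, DEGF_zero, DEGF_var]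

lemma DEGF_p4 : (p4 oT).deg ∅ = 4 := by
  unfold p4
  rw [DEGF_mul, DEGF_mul, DEGF_zz, DEGF_zero]

lemma DEGF_q (M : ℕ) (f : SF) : (qO oT M f).deg ∅ ≤ 2 := by
  unfold qO
  refine DEGF_sum2 M _ 2 fun v w => ?_
  rw [DEGF_mul, DEGF_cO, DEGF_zz]

lemma DEGF_qua (M : ℕ) (Fs : List SF) : (quaO oT M Fs).deg ∅ = 4 := by
  unfold quaO
  rw [DEGF_add, DEGF_add, DEGF_p4, DEGF_mul, DEGF_sub, DEGF_var, DEGF_one]
  have h1 : (sumO oT (Fs.map fun f => oT.mul (qO oT M f) (qO oT M f))).deg ∅ ≤ 4 := by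
    refine DEGF_sum _ 4 fun t ht => ?_
    rw [List.mem_map] at ht
    obtain ⟨f, -, rfl⟩ := ht
    rw [DEGF_mul]
    have := DEGF_q M f
    omega
  have h2 : max 1 0 = 1 := rfl
  omega

lemma DEGF_F2 (M : ℕ) (Fs : List SF) : ∀ z ∈ (F2 M Fs).atoms, atomDeg ∅ z ≤ 2 := by
  induction Fs with
  | nil =>
    intro z hz
    have hz' : z ∈ [(Term.var 0, Term.one)] := hz
    rw [List.mem_singleton] at hz'
    subst hz'
    show max ((oT.var 0).deg ∅) ((oT.one).deg ∅) ≤ 2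
    rw [DEGF_var, DEGF_one]
    decide
  | cons f Fs ih =>
    intro z hz
    have hz' : z ∈ [(qO oT M f, Term.zero)] ++ (F2 M Fs).atoms := hz
    rw [List.mem_append, List.mem_singleton] at hz'
    rcases hz' with rfl | hz'
    · show max ((qO oT M f).deg ∅) ((oT.zero).deg ∅) ≤ 2
      rw [DEGF_zero]
      have := DEGF_q M f
      omega
    · exact ih z hz'

theorem st_DEGF : ST_DEGF := by
  intro M Fs
  have b2 : atomDeg ∅ (ballO oT M Fs (p2 oT), nuO oT 3) = 2 := by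
    show max _ _ = 2
    rw [DEGF_ball M Fs _ DEGF_p2.ge, DEGF_p2, DEGF_nu]
    rfl
  have b3 : atomDeg ∅ (ballO oT M Fs (p3 oT), nuO oT 3) = 3 := by
    show max _ _ = 3
    rw [DEGF_ball M Fs _ (by rw [DEGF_p3]; decide), DEGF_p3, DEGF_nu]
    rfl
  have c3 : atomDeg ∅ (cubO oT M Fs (p3 oT), nuO oT 2) = 3 := by
    show max _ _ = 3
    rw [DEGF_cub M Fs _ DEGF_p3, DEGF_nu]
    rfl
  have q4 : atomDeg ∅ (quaO oT M Fs, Term.zero) = 4 := by
    show max ((quaO oT M Fs).deg ∅) 0 = 4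
    rw [DEGF_qua]
    rfl
  have a1 : (F23 M Fs).atoms = [(ballO oT M Fs (p2 oT), nuO oT 3),
      (cubO oT M Fs (p3 oT), nuO oT 2)] := rfl
  have a2 : (F33 M Fs).atoms = [(ballO oT M Fs (p3 oT), nuO oT 3),
      (cubO oT M Fs (p3 oT), nuO oT 2)] := rfl
  have a3 : (F4 M Fs).atoms = [(quaO oT M Fs, Term.zero)] := rfl
  refine ⟨?_, ?_, ?_, ?_, ?_, ?_, ?_⟩
  · unfold Form.Prof
    rw [a1]
    simp [b2, c3]
  · unfold Form.Prof
    rw [a2]
    simp [b3, c3]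
  · unfold Form.Prof
    rw [a3]
    simp [q4]
  · unfold Form.Prof
    have h3 : (F2 M Fs).atoms.countP (fun z => decide (atomDeg ∅ z = 3)) = 0 := by
      rw [List.countP_eq_zero]
      intro z hz
      have := DEGF_F2 M Fs z hz
      simp only [decide_eq_true_eq]
      omega
    have h4 : (F2 M Fs).atoms.countP (fun z => decide (4 ≤ atomDeg ∅ z)) = 0 := by
      rw [List.countP_eq_zero]
      intro z hz
      have := DEGF_F2 M Fs z hz
      simp only [decide_eq_true_eq]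
      omega
    rw [h3, h4]
    simp
  · rw [a1]; rfl
  · rw [a2]; rfl
  · rw [a3]; rfl

end Pool.Agent.Helper18.DCT
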