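import Pool.Agent.Helper54.DT.StmtsS

namespace Pool.Agent.Helper18.DCT

open Finset Pool.Agent.Helper54.ETR Pool.Agent.Helper54.Poly Pool.Agent.Helper54.DT

lemma NAT_zero : (oT.zero).toks = oK.zero := rfl
lemma NAT_one : (oT.one).toks = oK.one := rfl
lemma NAT_var (i : ℕ) : (oT.var i).toks = oK.var i := rfl
lemma NAT_add (s t : Term) : (oT.add s t).toks = oK.add s.toks t.toks := rfl
lemma NAT_sub (s t : Term) : (oT.sub s t).toks = oK.sub s.toks t.toks := rfl
lemma NAT_mul (s t : Term) : (oT.mul s t).toks = oK.mul s.toks t.toks := rfl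

lemma NAT_sum (l : List Term) : (sumO oT l).toks = sumO oK (l.map Term.toks) := by
  induction l with
  | nil => rfl
  | cons a l ih =>
    show oK.add a.toks (sumO oT l).toks = oK.add a.toks (sumO oK (l.map Term.toks))
    rw [ih]

lemma NAT_nu (n : ℕ) : (nuO oT n).toks = nuO oK n := by
  induction n with
  | zero => rfl
  | succ n ih =>
    show oK.add (nuO oT n).toks oK.one = oK.add (nuO oK n) oK.one
    rw [ih]

lemma NAT_cf1 (P : List ℕ → List ℕ → Term) (m : ℕ) :
    (cf1 oT P m).toks = cf1 oK (fun l1 l2 => (P l1 l2).toks) m := by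
  unfold cf1
  split_ifs <;> rfl

lemma NAT_t3 (P : List ℕ → List ℕ → Term) (i j k : ℕ) :
    (t3 oT P i j k).toks = t3 oK (fun l1 l2 => (P l1 l2).toks) i j k := rfl

lemma NAT_h2 (P : List ℕ → List ℕ → Term) (i j : ℕ) :
    (h2 oT P i j).toks = h2 oK (fun l1 l2 => (P l1 l2).toks) i j := rfl

lemma NAT_cf3 (P : List ℕ → List ℕ → Term) (a b c : ℕ) :
    (cf3 oT P a b c).toks = cf3 oK (fun l1 l2 => (P l1 l2).toks) a b c := by
  unfold cf3
  split_ifs
  · rfl
  · split <;> simp only [NAT_sub, NAT_mul, NAT_nu, NAT_t3,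
      NAT_h2]

lemma NAT_rowC (lin : List (List ℕ → List ℕ → Term)) (r m : ℕ) :
    (rowC oT lin r m).toks = rowC oK (lin.map fun P l1 l2 => (P l1 l2).toks) r m := by
  unfold rowC
  rw [List.length_map]
  split_ifs with h1
  · rw [NAT_cf1]
    congr 1
    simp [List.getD_eq_getElem?_getD, h1]
  all_goals rfl

lemma NAT_locE (M R : ℕ) (E : ℕ → ℕ → Term) (tg : ℕ → Bool) (S : ℕ → ℕ → ℕ → Term)
    (h a α b β : ℕ) : (locE oT M R E tg S h a α b β).toks =
    locE oK M R (fun r m => (E r m).toks) tg (fun a b c => (S a b c).toks) h a α b β := by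
  unfold locE
  rw [NAT_add, NAT_sum, NAT_sum, List.map_map, List.map_map]
  congr 2
  refine List.map_congr_left fun r _ => ?_
  show (if tg r then _ else _ : Term).toks = _
  split_ifs <;> rfl

lemma NAT_objE (M : ℕ) (S : ℕ → ℕ → ℕ → Term) (h : ℕ) :
    (objE oT M S h).toks = objE oK M (fun a b c => (S a b c).toks) h := by
  unfold objE
  rw [NAT_sum, List.map_flatMap]
  congr 2
  funext a
  rw [List.map_flatMap]
  congr 1
  funext b
  rw [List.map_map]
  rfl

lemma NAT_linE (M : ℕ) (e : ℕ → Term) (v : ℕ → ℕ) :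
    (linE oT M e v).toks = linE oK M (fun m => (e m).toks) v := by
  unfold linE
  rw [NAT_sum, List.map_map]
  rfl

lemma NAT_mapM_append (A B : List (List (List Term))) : mapM (A ++ B) = mapM A ++ mapM B := by
  unfold mapM
  rw [List.map_append]

lemma NAT_mapM_flatMap {α : Type} (l : List α) (F : α → List (List (List Term))) :
    mapM (l.flatMap F) = l.flatMap fun a => mapM (F a) := by
  unfold mapM
  rw [List.map_flatMap]

lemma NAT_mapM_cons (A : List (List Term)) (B : List (List (List Term))) :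
    mapM (A :: B) = (A.map fun r => r.map Term.toks) :: mapM B := rfl

lemma NAT_mapM_nil : mapM [] = [] := rfl

lemma NAT_eqn (t : Term) : mapM (eqn oT t) = eqn oK t.toks := rfl

lemma NAT_mat (N : ℕ) (F : ℕ → ℕ → Term) :
    (((List.range N).map fun i => (List.range N).map fun j => F i j).map
      fun r => r.map Term.toks) =
    (List.range N).map fun i => (List.range N).map fun j => (F i j).toks := by
  rw [List.map_map]
  refine List.map_congr_left fun i _ => ?_
  show ((List.range N).map fun j => F i j).map Term.toks = _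
  rw [List.map_map]
  rfl

lemma NAT_half (M R : ℕ) (E : ℕ → ℕ → Term) (kd : ℕ → ℕ) (tg : ℕ → Bool)
    (S : ℕ → ℕ → ℕ → Term) (md : Bool) (h : ℕ) :
    mapM (half oT M R E kd tg S md h) =
    half oK M R (fun r m => (E r m).toks) kd tg (fun a b c => (S a b c).toks) md h := by
  unfold half
  simp only [NAT_mapM_append]
  refine congrArg₂ _ (congrArg₂ _ (congrArg₂ _ (congrArg₂ _ (congrArg₂ _ (congrArg₂ _ (congrArg₂ _
    (congrArg₂ _ (congrArg₂ _ (congrArg₂ _ ?_ ?_) ?_) ?_) ?_) ?_) ?_) ?_) ?_) ?_) ?_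
  · rfl
  · simp only [NAT_mapM_flatMap]
    rfl
  · rw [NAT_mapM_cons, NAT_mapM_nil, NAT_mat]
    rfl
  · rw [NAT_mapM_flatMap]
    refine List.flatMap_congr fun r _ => ?_
    split_ifs
    · simp only [NAT_mapM_flatMap, NAT_eqn, NAT_linE]
    · rfl
  · rw [NAT_mapM_flatMap]
    refine List.flatMap_congr fun r _ => ?_
    split_ifs
    · rfl
    · simp only [NAT_mapM_cons, NAT_mapM_nil, List.map_cons, List.map_nil, NAT_linE]
  · rw [NAT_mapM_flatMap]
    refine List.flatMap_congr fun r _ => ?_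
    split_ifs
    · simp only [NAT_mapM_flatMap, NAT_eqn, NAT_linE]
    · rfl
  · rw [NAT_mapM_cons, NAT_mapM_nil, NAT_mat]
    simp only [NAT_locE]
  · rfl
  · rw [NAT_mapM_flatMap]
    refine List.flatMap_congr fun r _ => ?_
    split_ifs
    · simp only [NAT_eqn, NAT_linE]
    · simp only [NAT_mapM_cons, NAT_mapM_nil, List.map_cons, List.map_nil, NAT_linE, NAT_sub,
        NAT_var]
    · simp only [NAT_mapM_cons, NAT_mapM_nil, List.map_cons, List.map_nil, NAT_linE]
  · rfl
  · split_ifs
    · simp only [NAT_mapM_cons, NAT_mapM_nil, List.map_cons, List.map_nil, NAT_objE, NAT_sub,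
        NAT_var, NAT_zero]
    · simp only [NAT_mapM_cons, NAT_mapM_flatMap, List.map_cons, List.map_nil, NAT_objE,
        NAT_sub, NAT_var, NAT_zero, NAT_eqn]

theorem st_NAT : ST_NAT := by
  intro P hP n wb kl lin f0 f1 m0 m1
  unfold instO
  rw [NAT_mapM_append, NAT_half, NAT_half]
  have hl : (fun r m => (rowC oT (lin.map PPT) r m).toks) =
      rowC oK ((lin.map fun z => (z.1.toks, z.2.toks)).map P) := by
    funext r m
    rw [NAT_rowC]
    congr 1
    rw [List.map_map, List.map_map]
    refine List.map_congr_left fun z _ => ?_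
    funext l1 l2
    exact hP z l1 l2
  have hf : ∀ f : Term × Term, (fun a b c => (cf3 oT (PPT f) a b c).toks) =
      cf3 oK (P (f.1.toks, f.2.toks)) := by
    intro f
    funext a b c
    rw [NAT_cf3]
    congr 1
    funext l1 l2
    exact hP f l1 l2
  rw [hl, hf, hf, List.length_map]

end Pool.Agent.Helper18.DCT
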