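import Pool.Agent.Helper54.DT.StmtsS

namespace Pool.Agent.Helper18.DCT

open Finset Pool.Agent.Helper54.ETR Pool.Agent.Helper54.Poly Pool.Agent.Helper54.DT

lemma SEML_sum (M K : ℕ) (F : ℕ → ℝ) :
    ∑ i ∈ range (K * M), F i = ∑ a ∈ Ico 1 (K + 1), ∑ α ∈ range M, F ((a - 1) * M + α) := by
  induction K with
  | zero => simp
  | succ K ih =>
    rw [Nat.succ_mul, Finset.sum_range_add, ih, Finset.sum_Ico_succ_top (show 1 ≤ K + 1 by omega)]
    simp

lemma SEML_ent (N : ℕ) (F : ℕ → ℕ → Term) (i j : ℕ) (hi : i < N) (hj : j < N) :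
    ent ((List.range N).map fun i => (List.range N).map fun j => F i j) i j = F i j := by
  unfold ent
  simp [List.getD_eq_getElem?_getD, hi, hj]

lemma SEML_div (M a α : ℕ) (ha : 1 ≤ a) (hα : α < M) :
    ((a - 1) * M + α) / M + 1 = a ∧ ((a - 1) * M + α) % M = α := by
  have hM : 0 < M := by omega
  constructor
  · rw [Nat.add_comm ((a - 1) * M), Nat.add_mul_div_right _ _ hM, Nat.div_eq_of_lt hα]
    omega
  · rw [Nat.add_comm ((a - 1) * M), Nat.add_mul_mod_self_right, Nat.mod_eq_of_lt hα]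

theorem st_SEML : ST_SEML := by
  intro M G x hM
  obtain ⟨K, rfl⟩ : ∃ K, M = K + 1 := ⟨M - 1, by omega⟩
  have hK : K + 1 - 1 = K := by omega
  rw [hK]
  have key : ∀ v : ℕ → ℝ,
      ∑ i ∈ range (K * (K + 1)), ∑ j ∈ range (K * (K + 1)), v i * v j *
        (ent ((List.range (K * (K + 1))).map fun i => (List.range (K * (K + 1))).map fun j =>
          G (i / (K + 1) + 1) (i % (K + 1)) (j / (K + 1) + 1) (j % (K + 1))) i j).eval x =
      ∑ a ∈ Ico 1 (K + 1), ∑ α ∈ range (K + 1), ∑ b ∈ Ico 1 (K + 1), ∑ β ∈ range (K + 1),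
        v ((a - 1) * (K + 1) + α) * v ((b - 1) * (K + 1) + β) * (G a α b β).eval x := by
    intro v
    have h1 : ∀ i ∈ range (K * (K + 1)), ∑ j ∈ range (K * (K + 1)), v i * v j *
        (ent ((List.range (K * (K + 1))).map fun i => (List.range (K * (K + 1))).map fun j =>
          G (i / (K + 1) + 1) (i % (K + 1)) (j / (K + 1) + 1) (j % (K + 1))) i j).eval x =
        ∑ j ∈ range (K * (K + 1)), v i * v j *
          (G (i / (K + 1) + 1) (i % (K + 1)) (j / (K + 1) + 1) (j % (K + 1))).eval x := by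
      intro i hi
      refine Finset.sum_congr rfl fun j hj => ?_
      rw [SEML_ent (K * (K + 1)) (fun i j => G (i / (K + 1) + 1) (i % (K + 1)) (j / (K + 1) + 1)
        (j % (K + 1))) i j (by simpa using hi) (by simpa using hj)]
    rw [Finset.sum_congr rfl h1, SEML_sum]
    refine Finset.sum_congr rfl fun a ha => Finset.sum_congr rfl fun α hα => ?_
    rw [SEML_sum]
    refine Finset.sum_congr rfl fun b hb => Finset.sum_congr rfl fun β hβ => ?_
    rw [Finset.mem_Ico] at ha hb
    rw [Finset.mem_range] at hα hβ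
    obtain ⟨p1, p2⟩ := SEML_div (K + 1) a α ha.1 hα
    obtain ⟨q1, q2⟩ := SEML_div (K + 1) b β hb.1 hβ
    rw [p1, p2, q1, q2]
  have hlen : ((List.range (K * (K + 1))).map fun i => (List.range (K * (K + 1))).map fun j =>
      G (i / (K + 1) + 1) (i % (K + 1)) (j / (K + 1) + 1) (j % (K + 1))).length =
      K * (K + 1) := by simp
  unfold PsdAt
  rw [hlen]
  constructor
  · intro h v
    have := h (fun i => v (i / (K + 1) + 1) (i % (K + 1)))
    rw [key] at this
    refine this.trans_eq ?_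
    refine Finset.sum_congr rfl fun a ha => Finset.sum_congr rfl fun α hα =>
      Finset.sum_congr rfl fun b hb => Finset.sum_congr rfl fun β hβ => ?_
    rw [Finset.mem_Ico] at ha hb
    rw [Finset.mem_range] at hα hβ
    obtain ⟨p1, p2⟩ := SEML_div (K + 1) a α ha.1 hα
    obtain ⟨q1, q2⟩ := SEML_div (K + 1) b β hb.1 hβ
    simp only [p1, p2, q1, q2]
  · intro h v
    rw [key]
    exact h (fun a α => v ((a - 1) * (K + 1) + α))

end Pool.Agent.Helper18.DCT
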